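import Pool.Agent.V5helper43.NC.Stm

/-!
# Project NC, job SYS: the data exist

Adapted from `Pool.Agent.Y940.HB.Tower` and `Pool.Agent.Y940.HB.Sys`.
-/

set_option autoImplicit false

open Finset

namespace Pool.Agent.V5helper50.NC

open Pool.Agent.V5helper43.NC
open Pool.Agent.Y940.HB (d co Z ext hash ext_lt)

variable (π : Par)

/-- exponential parameter -/
noncomputable def lam (i : ℕ) : ℝ := 1 / (4 * 2 ^ π.s i * (i + 1))

theorem lam_pos (i : ℕ) : 0 < lam π i := by unfold lam; positivity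

theorem lam_step (i : ℕ) : 2 * lam π (i + 1) * 2 ^ π.s i ≤ 1 / (2 * ((i : ℝ) + 2)) := by
  unfold lam
  have h1 : (2 : ℝ) ^ π.s i ≤ 2 ^ π.s (i + 1) :=
    pow_le_pow_right₀ (by norm_num) (π.s_mono (by omega))
  have h2 : (0 : ℝ) < 2 ^ π.s i := by positivity
  have h3 : (0 : ℝ) < 2 ^ π.s (i + 1) := by positivity
  push_cast
  have e : 2 * (1 / (4 * 2 ^ π.s (i + 1) * ((i : ℝ) + 1 + 1))) * 2 ^ π.s i
      = (2 ^ π.s i / 2 ^ π.s (i + 1)) * (1 / (2 * ((i : ℝ) + 2))) := by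
    field_simp
    ring
  rw [e]
  have h4 : (2 : ℝ) ^ π.s i / 2 ^ π.s (i + 1) ≤ 1 := by
    rw [div_le_one h3]
    exact h1
  have h5 : (0 : ℝ) ≤ 1 / (2 * ((i : ℝ) + 2)) := by positivity
  nlinarith

theorem lam_rec (i : ℕ) : lam π (i + 1) * (1 + 2 * lam π (i + 1) * 2 ^ π.s i) ≤ lam π i := by
  have h1 := lam_step π i
  have h2 : lam π (i + 1) ≤ 1 / (4 * 2 ^ π.s i * ((i : ℝ) + 2)) := by
    unfold lam
    push_cast
    have h1 : (2 : ℝ) ^ π.s i ≤ 2 ^ π.s (i + 1) :=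
      pow_le_pow_right₀ (by norm_num) (π.s_mono (by omega))
    apply one_div_le_one_div_of_le (by positivity)
    have : (i : ℝ) + 1 + 1 = i + 2 := by ring
    rw [this]
    gcongr
  have h3 := lam_pos π (i + 1)
  calc lam π (i + 1) * (1 + 2 * lam π (i + 1) * 2 ^ π.s i)
      ≤ 1 / (4 * 2 ^ π.s i * ((i : ℝ) + 2)) * (1 + 1 / (2 * ((i : ℝ) + 2))) := by
        gcongr
    _ ≤ lam π i := by
        unfold lam
        have e : 1 / (4 * 2 ^ π.s i * ((i : ℝ) + 2)) * (1 + 1 / (2 * ((i : ℝ) + 2)))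
          = (2 * (i : ℝ) + 5) / (4 * 2 ^ π.s i * (2 * ((i : ℝ) + 2) ^ 2)) := by
          field_simp
          ring
        rw [e, div_le_div_iff₀ (by positivity) (by positivity)]
        have h4 : (0 : ℝ) < 4 * 2 ^ π.s i := by positivity
        have h5 : (0 : ℝ) ≤ i := Nat.cast_nonneg i
        have h6 : (2 * (i : ℝ) + 5) * (i + 1) ≤ 2 * ((i : ℝ) + 2) ^ 2 := by nlinarith
        nlinarith

/-- invariants of the tower -/
def Good (i : ℕ) (P : Finset ℕ) : Prop :=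
  (∀ x ∈ P, x < 4 ^ π.m i) ∧
    ∑ n ∈ range (4 ^ π.m i), Real.exp (lam π i * Z P (4 ^ π.m i) n) ≤ Real.exp (i + 1) * 4 ^ π.m i

theorem good_zero : Good π 0 {0} := by
  have hm : π.m 0 = 0 := rfl
  refine ⟨by simp [hm], ?_⟩
  have h1 : Z {0} (4 ^ π.m 0) 0 ≤ 1 := by
    unfold Z
    refine (card_filter_le _ _).trans (by simp)
  simp only [hm, pow_zero, range_one, sum_singleton, Nat.cast_zero, zero_add, mul_one]
  apply Real.exp_le_exp.2
  have h2 : lam π 0 ≤ 1 := by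
    unfold lam
    rw [div_le_one (by positivity)]
    have : (1 : ℝ) ≤ 2 ^ π.s 0 := one_le_pow₀ (by norm_num)
    push_cast
    linarith
  have h3 := lam_pos π 0
  have h4 : (Z {0} (4 ^ π.m 0) 0 : ℝ) ≤ 1 := by exact_mod_cast h1
  have h5 : (0 : ℝ) ≤ (Z {0} (4 ^ π.m 0) 0 : ℝ) := Nat.cast_nonneg _
  simp only [hm, pow_zero] at h4 h5
  nlinarith

theorem good_succ (c : Bool) (i : ℕ) (P : Finset ℕ) (h : Good π i P) :
    ∃ v : ℕ → ℕ, (∀ p, v p < 2 ^ π.s i) ∧ Good π (i + 1) (ext c (4 ^ π.m i) (π.s i) P v) := by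
  have h1 : 2 * lam π (i + 1) * 2 ^ π.s i ≤ 1 := by
    refine (lam_step π i).trans ?_
    rw [div_le_one (by positivity)]
    have : (0 : ℝ) ≤ i := Nat.cast_nonneg i
    linarith
  obtain ⟨v, hv, hsum⟩ := hash c (4 ^ π.m i) (π.s i) (by positivity) (lam π (i + 1))
    (lam_pos π _).le h1 P h.1
  refine ⟨v, hv, ?_, ?_⟩
  · intro x hx
    have := ext_lt h.1 hv x hx
    rwa [π.m_succ, pow_add]
  · rw [π.m_succ, pow_add]
    refine hsum.trans ?_
    have h2 : ∑ n ∈ range (4 ^ π.m i), Real.exp (lam π (i + 1) * (1 + 2 * lam π (i + 1) *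
        2 ^ π.s i) * Z P (4 ^ π.m i) n) ≤ Real.exp (i + 1) * 4 ^ π.m i := by
      refine le_trans (sum_le_sum ?_) h.2
      intro n _
      apply Real.exp_le_exp.2
      exact mul_le_mul_of_nonneg_right (lam_rec π i) (Nat.cast_nonneg _)
    have h3 : Real.exp (2 * lam π (i + 1) * 2 ^ π.s i) ≤ Real.exp 1 := Real.exp_le_exp.2 h1
    calc _ ≤ Real.exp 1 * (4 ^ π.s i * (Real.exp (i + 1) * 4 ^ π.m i)) := by
          gcongr
      _ = Real.exp (((i + 1 : ℕ) : ℝ) + 1) * (4 ^ (π.m i) * 4 ^ (π.s i)) := by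
          have : Real.exp (((i + 1 : ℕ) : ℝ) + 1) = Real.exp (i + 1) * Real.exp 1 := by
            rw [← Real.exp_add]
            push_cast
            ring_nf
          rw [this]
          ring
      _ = _ := by
          push_cast
          rw [pow_add]

theorem good_bound {i : ℕ} {P : Finset ℕ} (h : Good π i P) (n : ℕ) :
    (Z P (4 ^ π.m i) n : ℝ) ≤ 4 * 2 ^ π.s i * (i + 1) * (i + 1 + 2 * π.m i) := by
  have h0 : Z P (4 ^ π.m i) n = Z P (4 ^ π.m i) (n % 4 ^ π.m i) := by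
    unfold Z
    rw [Nat.mod_mod]
  rw [h0]
  have h1 : Real.exp (lam π i * Z P (4 ^ π.m i) (n % 4 ^ π.m i)) ≤
      Real.exp (i + 1) * 4 ^ π.m i :=
    (single_le_sum (f := fun n => Real.exp (lam π i * Z P (4 ^ π.m i) n))
      (fun _ _ => (Real.exp_pos _).le)
      (mem_range.2 (Nat.mod_lt n (by positivity)))).trans h.2
  have h2 : (4 : ℝ) ^ π.m i ≤ Real.exp (2 * π.m i) := by
    have : (4 : ℝ) ≤ Real.exp 2 := by
      have := Real.quadratic_le_exp_of_nonneg (x := 2) (by norm_num)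
      linarith
    calc (4 : ℝ) ^ π.m i ≤ (Real.exp 2) ^ π.m i := pow_le_pow_left₀ (by norm_num) this _
      _ = Real.exp (2 * π.m i) := by
          rw [← Real.exp_nat_mul]
          ring_nf
  have h3 : Real.exp (lam π i * Z P (4 ^ π.m i) (n % 4 ^ π.m i)) ≤
      Real.exp (i + 1 + 2 * π.m i) := by
    rw [Real.exp_add]
    exact h1.trans (mul_le_mul_of_nonneg_left h2 (Real.exp_pos _).le)
  have h4 := Real.exp_le_exp.1 h3
  unfold lam at h4
  rw [div_mul_eq_mul_div, one_mul, div_le_iff₀ (by positivity)] at h4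
  linarith

theorem tower (c : Bool) : ∃ (P : ℕ → Finset ℕ) (v : ℕ → ℕ → ℕ), P 0 = {0} ∧
    (∀ i p, v i p < 2 ^ π.s i) ∧
    (∀ i, P (i + 1) = ext c (4 ^ π.m i) (π.s i) (P i) (v i)) ∧
    (∀ i n, (Z (P i) (4 ^ π.m i) n : ℝ) ≤ 4 * 2 ^ π.s i * (i + 1) * (i + 1 + 2 * π.m i)) := by
  have step : ∀ (i : ℕ) (P : {P : Finset ℕ // Good π i P}), ∃ v : ℕ → ℕ,
      (∀ p, v p < 2 ^ π.s i) ∧ Good π (i + 1) (ext c (4 ^ π.m i) (π.s i) P.1 v) :=
    fun i P => good_succ π c i P.1 P.2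
  choose v hv hgood using step
  let Q : ∀ i : ℕ, {P : Finset ℕ // Good π i P} := fun i =>
    Nat.rec ⟨{0}, good_zero π⟩
      (fun i P => ⟨ext c (4 ^ π.m i) (π.s i) P.1 (v i P), hgood i P⟩) i
  refine ⟨fun i => (Q i).1, fun i => v i (Q i), rfl, fun i p => hv i (Q i) p, fun i => rfl, ?_⟩
  intro i n
  exact good_bound π (Q i).2 n

/-- **SYS.** -/
theorem t_SYS : S_SYS := by
  intro π
  have h := fun c => tower π c
  choose P v h0 hv hP hZ using h
  refine ⟨⟨P, v, h0, hv, hP, ?_⟩⟩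
  intro c i n
  have := hZ c i n
  unfold Par.zb
  exact_mod_cast this

end Pool.Agent.V5helper50.NC
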