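import Pool.Agent.V5helper43.NC.Stm

/-!
# Project NC, job UNC: numbers which are not sums of two main elements of different types
-/

set_option autoImplicit false

open Finset

namespace Pool.Agent.V5helper50.NC

open Pool.Agent.V5helper43.NC
open Pool.Agent.Y940.HB (d co Z ext co_true co_false mem_ext ext_lt card_ext co_lt split_unique
  co_split_unique lt_of_d_lt co_pos)

variable {π : Par} (S : Sys π)

/-- the numbers with a small residue -/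
def F1 (π : Par) (i k : ℕ) : Finset ℕ :=
  (range (4 ^ (k - (π.m (i + 1) + π.l (i + 1)))) ×ˢ range (4 * 4 ^ π.m (i + 1))).image
    fun q => π.X (i + 1) * q.1 + q.2

/-- the sums of a small element and an element with the hash value -/
def F2 (c : Bool) (i k : ℕ) : Finset ℕ :=
  ((S.P c i ×ˢ range (2 ^ π.l i)) ×ˢ (S.P (!c) i ×ˢ (range (2 ^ (k - π.m i)) ×ˢ range 2))).image
    fun q => (q.1.1 + 4 ^ π.m i * (co c * d q.1.2)) +
      (q.2.1 + 4 ^ π.m i * (co (!c) * d q.2.2.1 + q.2.2.2 * (co (!(!c)) * d (S.v (!c) i q.2.1))))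

theorem card_F1 (i k : ℕ) (hk : π.m (i + 1) + π.l (i + 1) ≤ k) :
    (F1 π i k).card * 4 ^ π.l i ≤ 4 * 4 ^ k := by
  have h1 : (F1 π i k).card ≤ 4 ^ (k - (π.m (i + 1) + π.l (i + 1))) * (4 * 4 ^ π.m (i + 1)) := by
    refine card_image_le.trans ?_
    rw [card_product, card_range, card_range]
  have h2 := π.mono (Nat.le_add_right i 1)
  calc (F1 π i k).card * 4 ^ π.l i ≤
      4 ^ (k - (π.m (i + 1) + π.l (i + 1))) * (4 * 4 ^ π.m (i + 1)) * 4 ^ π.l i :=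
        Nat.mul_le_mul_right _ h1
    _ = 4 * 4 ^ (k - (π.m (i + 1) + π.l (i + 1)) + π.m (i + 1) + π.l i) := by
        rw [pow_add, pow_add]; ring
    _ ≤ 4 * 4 ^ k := Nat.mul_le_mul_left _ (Nat.pow_le_pow_right (by norm_num) (by omega))

theorem card_F2 (c : Bool) (i k : ℕ) (hk : π.m (i + 1) + π.l (i + 1) ≤ k) :
    (F2 S c i k).card * 4 ^ π.l i ≤ 2 * 4 ^ k := by
  have h1 : (F2 S c i k).card ≤
      2 ^ π.m i * 2 ^ π.l i * (2 ^ π.m i * (2 ^ (k - π.m i) * 2)) := by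
    refine card_image_le.trans ?_
    rw [card_product, card_product, card_product, card_product, card_range, card_range, card_range,
      S.P_card, S.P_card]
  have h2 := π.mono (Nat.le_add_right i 1)
  have h3 : π.m (i + 1) = π.m i + 2 * π.l i := rfl
  calc (F2 S c i k).card * 4 ^ π.l i ≤
      2 ^ π.m i * 2 ^ π.l i * (2 ^ π.m i * (2 ^ (k - π.m i) * 2)) * 4 ^ π.l i :=
        Nat.mul_le_mul_right _ h1
    _ = 2 * 2 ^ (π.m i + π.l i + (π.m i + (k - π.m i)) + 2 * π.l i) := by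
        rw [show (4 : ℕ) = 2 ^ 2 by norm_num, ← pow_mul, pow_add, pow_add, pow_add, pow_add]; ring
    _ ≤ 2 * 2 ^ (2 * k) :=
        Nat.mul_le_mul_left _ (Nat.pow_le_pow_right (by norm_num) (by omega))
    _ = 2 * 4 ^ k := by rw [pow_mul]; norm_num

theorem mem_F1 {i k n : ℕ} (hk : π.m (i + 1) + π.l (i + 1) ≤ k) (hn : n < 4 ^ k)
    (h : n % π.X (i + 1) < 4 * 4 ^ π.m (i + 1)) : n ∈ F1 π i k := by
  refine mem_image.2 ⟨(n / π.X (i + 1), n % π.X (i + 1)), ?_, Nat.div_add_mod _ _⟩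
  rw [mem_product, mem_range, mem_range]
  refine ⟨?_, h⟩
  show n / π.X (i + 1) < _
  have h0 : 0 < π.X (i + 1) := by unfold Par.X; positivity
  rw [Nat.div_lt_iff_lt_mul h0, Par.X, ← pow_add, Nat.sub_add_cancel hk]
  exact hn

theorem mem_F2 {c : Bool} {i k n a b : ℕ} (hn : n < 4 ^ k) (hm : π.m i ≤ k) (ha : a ∈ S.V c i)
    (hb : b ∈ S.W (!c) i) (hab : a + b = n) : n ∈ F2 S c i k := by
  obtain ⟨p, hp, u, hu, rfl⟩ := ha
  obtain ⟨q, hq, w, ε, hε, rfl⟩ := hb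
  refine mem_image.2 ⟨((p, u), (q, (w, ε))), ?_, hab⟩
  simp only [mem_product, mem_range]
  refine ⟨⟨hp, hu⟩, hq, ?_, by omega⟩
  apply lt_of_d_lt
  have h1 := co_pos (!c)
  have h2 : 4 ^ π.m i * d w ≤ 4 ^ π.m i * (co (!c) * d w + ε * (co (!(!c)) * d (S.v (!c) i q))) := by
    apply Nat.mul_le_mul_left
    calc d w = 1 * d w := (one_mul _).symm
      _ ≤ co (!c) * d w := Nat.mul_le_mul_right _ h1
      _ ≤ _ := Nat.le_add_right _ _
  have h3 : 4 ^ π.m i * d w < 4 ^ π.m i * 4 ^ (k - π.m i) := by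
    rw [← pow_add, Nat.add_sub_cancel' hm]
    omega
  exact Nat.lt_of_mul_lt_mul_left h3

theorem unc_level (hgen : S_GEN) (i k : ℕ) (hk : π.m (i + 1) + π.l (i + 1) ≤ k) :
    {n | (π.X (i + 1) ≤ n ∧ n < π.X (i + 2)) ∧ n < 4 ^ k ∧
      ¬ ∃ a ∈ S.A0 true, ∃ b ∈ S.A0 false, a + b = n}.ncard * 4 ^ π.l i ≤ 8 * 4 ^ k := by
  have hm : π.m i ≤ k := by
    have h3 : π.m (i + 1) = π.m i + 2 * π.l i := rfl
    omega
  have hsub : {n | (π.X (i + 1) ≤ n ∧ n < π.X (i + 2)) ∧ n < 4 ^ k ∧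
      ¬ ∃ a ∈ S.A0 true, ∃ b ∈ S.A0 false, a + b = n} ⊆
      ((F1 π i k ∪ (F2 S true i k ∪ F2 S false i k) : Finset ℕ) : Set ℕ) := by
    rintro n ⟨⟨h1, h2⟩, h3, h4⟩
    rw [mem_coe, mem_union, mem_union]
    rcases hgen π S i n h1 h2 with h | h | ⟨c, a, ha, b, hb, h⟩
    · exact absurd h h4
    · exact Or.inl (mem_F1 hk h3 h)
    · right
      cases c with
      | true => exact Or.inl (mem_F2 S h3 hm ha hb h)
      | false => exact Or.inr (mem_F2 S h3 hm ha hb h)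
  have h1 := Set.ncard_le_ncard hsub (Finset.finite_toSet _)
  rw [Set.ncard_coe_finset] at h1
  have h2 : (F1 π i k ∪ (F2 S true i k ∪ F2 S false i k)).card ≤
      (F1 π i k).card + ((F2 S true i k).card + (F2 S false i k).card) :=
    (card_union_le _ _).trans (Nat.add_le_add_left (card_union_le _ _) _)
  have h3 := card_F1 (π := π) i k hk
  have h4 := card_F2 S true i k hk
  have h5 := card_F2 S false i k hk
  calc _ ≤ ((F1 π i k).card + ((F2 S true i k).card + (F2 S false i k).card)) * 4 ^ π.l i :=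
        Nat.mul_le_mul_right _ (h1.trans h2)
    _ = (F1 π i k).card * 4 ^ π.l i + ((F2 S true i k).card * 4 ^ π.l i +
        (F2 S false i k).card * 4 ^ π.l i) := by ring
    _ ≤ 8 * 4 ^ k := by omega

/-- **UNC.** -/
theorem t_UNC (hgen : S_GEN) : S_UNC := by
  intro π S j k hk1 hk2
  have hm2 : π.m (j + 2) = π.m (j + 1) + 2 * π.l (j + 1) := rfl
  have hm1 : π.m (j + 1) = π.m j + 2 * π.l j := rfl
  have hl1 := π.mono (Nat.le_add_right j 1)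
  have hl2 := π.mono (Nat.le_add_right (j + 1) 1)
  have e1 := unc_level S hgen j (π.m (j + 2) + π.l (j + 2)) (by omega)
  have e2 := unc_level S hgen (j + 1) k (by omega)
  have hsub : {n | n < 4 ^ k ∧ ¬ ∃ a ∈ S.A0 true, ∃ b ∈ S.A0 false, a + b = n} ⊆
      ((range (π.X (j + 1)) : Finset ℕ) : Set ℕ) ∪
      ({n | (π.X (j + 1) ≤ n ∧ n < π.X (j + 2)) ∧ n < 4 ^ (π.m (j + 2) + π.l (j + 2)) ∧
        ¬ ∃ a ∈ S.A0 true, ∃ b ∈ S.A0 false, a + b = n} ∪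
      {n | (π.X (j + 1 + 1) ≤ n ∧ n < π.X (j + 1 + 2)) ∧ n < 4 ^ k ∧
        ¬ ∃ a ∈ S.A0 true, ∃ b ∈ S.A0 false, a + b = n}) := by
    rintro n ⟨h1, h2⟩
    by_cases h3 : n < π.X (j + 1)
    · left
      rw [mem_coe, mem_range]
      exact h3
    right
    push Not at h3
    by_cases h4 : n < π.X (j + 2)
    · left
      exact ⟨⟨h3, h4⟩, h4, h2⟩
    · right
      push Not at h4
      refine ⟨⟨h4, ?_⟩, h1, h2⟩
      refine h1.trans_le ?_
      exact Nat.pow_le_pow_right (by norm_num) hk2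
  have hfin1 : Set.Finite {n | (π.X (j + 1) ≤ n ∧ n < π.X (j + 2)) ∧
      n < 4 ^ (π.m (j + 2) + π.l (j + 2)) ∧
        ¬ ∃ a ∈ S.A0 true, ∃ b ∈ S.A0 false, a + b = n} :=
    (Set.finite_lt_nat (4 ^ (π.m (j + 2) + π.l (j + 2)))).subset fun n hn => hn.2.1
  have hfin2 : Set.Finite {n | (π.X (j + 1 + 1) ≤ n ∧ n < π.X (j + 1 + 2)) ∧ n < 4 ^ k ∧
        ¬ ∃ a ∈ S.A0 true, ∃ b ∈ S.A0 false, a + b = n} :=
    (Set.finite_lt_nat (4 ^ k)).subset fun n hn => hn.2.1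
  have h1 := Set.ncard_le_ncard hsub ((Finset.finite_toSet _).union (hfin1.union hfin2))
  have h2 := Set.ncard_union_le ((range (π.X (j + 1)) : Finset ℕ) : Set ℕ)
    ({n | (π.X (j + 1) ≤ n ∧ n < π.X (j + 2)) ∧ n < 4 ^ (π.m (j + 2) + π.l (j + 2)) ∧
        ¬ ∃ a ∈ S.A0 true, ∃ b ∈ S.A0 false, a + b = n} ∪
      {n | (π.X (j + 1 + 1) ≤ n ∧ n < π.X (j + 1 + 2)) ∧ n < 4 ^ k ∧
        ¬ ∃ a ∈ S.A0 true, ∃ b ∈ S.A0 false, a + b = n})
  have h3 := Set.ncard_union_le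
    {n | (π.X (j + 1) ≤ n ∧ n < π.X (j + 2)) ∧ n < 4 ^ (π.m (j + 2) + π.l (j + 2)) ∧
        ¬ ∃ a ∈ S.A0 true, ∃ b ∈ S.A0 false, a + b = n}
      {n | (π.X (j + 1 + 1) ≤ n ∧ n < π.X (j + 1 + 2)) ∧ n < 4 ^ k ∧
        ¬ ∃ a ∈ S.A0 true, ∃ b ∈ S.A0 false, a + b = n}
  rw [Set.ncard_coe_finset, card_range] at h2
  generalize {n | n < 4 ^ k ∧ ¬ ∃ a ∈ S.A0 true, ∃ b ∈ S.A0 false, a + b = n}.ncard = N at h1 ⊢
  generalize {n | (π.X (j + 1) ≤ n ∧ n < π.X (j + 2)) ∧ n < 4 ^ (π.m (j + 2) + π.l (j + 2)) ∧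
        ¬ ∃ a ∈ S.A0 true, ∃ b ∈ S.A0 false, a + b = n}.ncard = N1 at e1 h3
  generalize {n | (π.X (j + 1 + 1) ≤ n ∧ n < π.X (j + 1 + 2)) ∧ n < 4 ^ k ∧
        ¬ ∃ a ∈ S.A0 true, ∃ b ∈ S.A0 false, a + b = n}.ncard = N2 at e2 h3
  have hN : N ≤ π.X (j + 1) + (N1 + N2) := by omega
  have g0 : π.X (j + 1) * 4 ^ π.l j ≤ 4 ^ k := by
    rw [Par.X, ← pow_add]
    exact Nat.pow_le_pow_right (by norm_num) (by omega)
  have g1 : N1 * 4 ^ π.l j ≤ 8 * 4 ^ k :=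
    e1.trans (Nat.mul_le_mul_left _ (Nat.pow_le_pow_right (by norm_num) hk1))
  have g2 : N2 * 4 ^ π.l j ≤ 8 * 4 ^ k :=
    (Nat.mul_le_mul_left _ (Nat.pow_le_pow_right (by norm_num) hl1)).trans e2
  calc N * 4 ^ π.l j ≤ (π.X (j + 1) + (N1 + N2)) * 4 ^ π.l j := Nat.mul_le_mul_right _ hN
    _ = π.X (j + 1) * 4 ^ π.l j + (N1 * 4 ^ π.l j + N2 * 4 ^ π.l j) := by ring
    _ ≤ 20 * 4 ^ k := by omega

end Pool.Agent.V5helper50.NC
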